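import Mathlib
import Pool.Agent.Lib.MP_ba6fcf_pr.Defs
import Pool.Agent.Lib.MP_ba6fcf_pr.Bound
import Pool.Agent.Lib.MP_ba6fcf_pr.Facts

/-!
# A finitely dependent process all of whose codings by i.i.d. have infinite mean coding radius

There is a stationary `1`-dependent process on `ℤ` (with values in the standard Borel space
`ℕ → Bool^5`) such that every factor map from every i.i.d. process onto it has a coding radius of
infinite expectation.

The process is an independent superposition over `j` of chains: at scale `j` sites are cuts with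
probability `1/(j+2)`; every cut has two fair settings `x` (right) and `y` (left), all outputs are
fair bits, and between consecutive cuts `a < b` the outputs satisfy exactly one parity constraint,
that the total parity of the outputs between them is `x_a y_b`. If the expected coding radius
were finite, then near the origin and at a suitable scale we would get a local hidden variable
model (the hidden variable is the i.i.d. input on `[-m, m]`, the settings are read far away) which
violates the CHSH inequality.
-/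

open MeasureTheory ProbabilityTheory Set
open scoped ENNReal

namespace Pool.Agent.Results.MP_ba6fcf_pr.InfiniteCodingRadius

open Pool.Agent.Lib.MP_ba6fcf_pr

universe u

theorem aux (T : Type u) [MeasurableSpace T] (ν : Measure T) [IsProbabilityMeasure ν]
    (φ : (ℤ → T) → (ℤ → (ℕ → Cell))) (hφ : Measurable φ)
    (heq : ∀ᵐ y ∂(iid ν ℤ), φ (shift y) = shift (φ y)) (hmap : (iid ν ℤ).map φ = mu) :
    ∫⁻ y, codingRadius φ y ∂(iid ν ℤ) = ⊤ := by
  by_contra hfin
  have hA : ∑' n : ℕ, d ν φ (Iic (n : ℤ)) ≠ ⊤ :=
    ne_top_of_le_ne_top hfin (tsum_d_le ν hφ (fun n => Iic (n : ℤ))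
      (fun n k hk => (le_abs_self k).trans hk))
  have hB : ∑' n : ℕ, d ν φ (Ici (-(n : ℤ))) ≠ ⊤ :=
    ne_top_of_le_ne_top hfin (tsum_d_le ν hφ (fun n => Ici (-(n : ℤ)))
      (fun n k hk => by
        have := (abs_le.1 hk).1
        exact this))
  have tA := ENNReal.tendsto_sum_nat_add _ hA
  have tB := ENNReal.tendsto_sum_nat_add _ hB
  have hpos : (0 : ℝ≥0∞) < 1 / 32 := by simp
  obtain ⟨m, hm⟩ := ((tA.eventually (gt_mem_nhds hpos)).and
    (((Filter.tendsto_add_atTop_iff_nat 1).2 tA |>.eventually (gt_mem_nhds hpos)).and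
    (tB.eventually (gt_mem_nhds hpos)))).exists
  obtain ⟨h1, h2, h3⟩ := hm
  set j : ℕ := 16 * (4 * m + 1) with hj
  have hpre : ∀ (s : Set (ℤ → ℕ → Cell)), MeasurableSet s →
      (iid ν ℤ) {y | φ y ∈ s} = mu s := by
    intro s hs
    rw [← hmap, Measure.map_apply hφ hs]; rfl
  have hbell := bell_bound ν hφ heq m (al j) (be j) (xf j m) (yf j m) (measurable_al j)
    (measurable_be j) (measurable_xf j m) (measurable_yf j m) (al_pm j) (be_pm j) (al_local j)
    (be_local j) (xf_local j m) (yf_local j m)
    (fun c => (hpre {x | xf j m x = c}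
      ((measurable_xf j m) (measurableSet_singleton c))).le.trans (xf_half j m c))
    (fun c => (hpre {x | yf j m x = c}
      ((measurable_yf j m) (measurableSet_singleton c))).le.trans (yf_half j m c))
  have hlose : (iid ν ℤ) {y | al j (φ y) * be j (φ y) ≠ sg (xf j m (φ y) && yf j m (φ y))} ≤
      1 / 16 := by
    have hmeas : MeasurableSet {x | al j x * be j x ≠ sg (xf j m x && yf j m x)} := by
      have m2 : Measurable (fun x => sg (xf j m x && yf j m x)) :=
        (measurable_of_countable (fun q : Bool × Bool => sg (q.1 && q.2))).comp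
        ((measurable_xf j m).prodMk (measurable_yf j m))
      exact (measurableSet_eq_fun ((measurable_al j).mul (measurable_be j)) m2).compl
    refine (hpre {x | al j x * be j x ≠ sg (xf j m x && yf j m x)} hmeas).le.trans ?_
    refine (mu_lose j m).trans ?_
    have hjj : ((16 * (4 * m + 1) : ℕ) : ℝ≥0∞) ≤ (j : ℝ≥0∞) + 2 := by
      rw [hj]; exact le_self_add
    calc ((4 * m + 1 : ℕ) : ℝ≥0∞) * ((j : ℝ≥0∞) + 2)⁻¹
        ≤ ((4 * m + 1 : ℕ) : ℝ≥0∞) * ((16 * (4 * m + 1) : ℕ) : ℝ≥0∞)⁻¹ := by
          gcongr
      _ = 1 / 16 := by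
          push_cast
          rw [ENNReal.mul_inv (by simp) (by simp), mul_comm (16 : ℝ≥0∞)⁻¹, ← mul_assoc,
            ENNReal.mul_inv_cancel (by positivity) (by finiteness)]
          simp
  have e1 : ∀ k : ℕ, ((k : ℤ) + m + 1) = ((k + (m + 1) : ℕ) : ℤ) := fun k => by push_cast; ring
  have e2 : ∀ k : ℕ, ((k : ℤ) + m) = ((k + m : ℕ) : ℤ) := fun k => by push_cast; ring
  simp_rw [e1, e2] at hbell
  have : (1 : ℝ≥0∞) / 4 ≤ 1 / 16 + ((1 / 32 + 1 / 32) + (1 / 32 + 1 / 32)) :=
    hbell.trans (add_le_add hlose (add_le_add (add_le_add h2.le h1.le) (add_le_add h3.le h3.le)))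
  have hlt : (1 / 16 : ℝ≥0∞) + ((1 / 32 + 1 / 32) + (1 / 32 + 1 / 32)) < 1 / 4 := by
    rw [show (1 / 16 : ℝ≥0∞) = ENNReal.ofReal (1 / 16) by
        rw [ENNReal.ofReal_div_of_pos (by norm_num)]; simp,
      show (1 / 32 : ℝ≥0∞) = ENNReal.ofReal (1 / 32) by
        rw [ENNReal.ofReal_div_of_pos (by norm_num)]; simp,
      show (1 / 4 : ℝ≥0∞) = ENNReal.ofReal (1 / 4) by
        rw [ENNReal.ofReal_div_of_pos (by norm_num)]; simp,
      ← ENNReal.ofReal_add (by norm_num) (by norm_num),
      ← ENNReal.ofReal_add (by norm_num) (by norm_num),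
      ← ENNReal.ofReal_add (by norm_num) (by norm_num)]
    exact (ENNReal.ofReal_lt_ofReal_iff (by norm_num)).2 (by norm_num)
  exact absurd this (not_le.2 hlt)

/-- There are a standard Borel space `S` and a stationary `1`-dependent process on `ℤ` with values
in `S` (with law `μ`) such that for every i.i.d. process (with single-site law `ν` on a measurable
space `T`) and every factor map `φ` (measurable, commuting with the shift almost surely) with
`φ(Y)` of law `μ`, the coding radius of `φ` has infinite expectation. -/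
theorem result : ∃ (S : Type) (_ : MeasurableSpace S) (_ : StandardBorelSpace S)
    (μ : Measure (ℤ → S)), IsProbabilityMeasure μ ∧ IsStationary μ ∧ IsKDependent 1 μ ∧
      ∀ (T : Type u) [MeasurableSpace T] (ν : Measure T) [IsProbabilityMeasure ν]
        (φ : (ℤ → T) → (ℤ → S)), Measurable φ →
        (∀ᵐ y ∂(Measure.infinitePi (fun _ : ℤ => ν)), φ (shift y) = shift (φ y)) →
        (Measure.infinitePi (fun _ : ℤ => ν)).map φ = μ →
        ∫⁻ y, codingRadius φ y ∂(Measure.infinitePi (fun _ : ℤ => ν)) = ⊤ :=
  ⟨ℕ → Cell, inferInstance, inferInstance, mu, inferInstance, mu_stationary, mu_kdep,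
    fun T _ ν _ φ hφ heq hmap => aux T ν φ hφ heq hmap⟩

end Pool.Agent.Results.MP_ba6fcf_pr.InfiniteCodingRadius
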